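import Pool.Agent.Helper93.KS.St

/-!
# PT3: the weights of Richert for three prime factors
-/

set_option autoImplicit false

namespace Pool.Agent.Helper34.KS

open Finset Filter Topology Pool.Agent.Helper93.KS

private theorem pow_le_prod (y : ℝ) (hy : 0 ≤ y) (l : List ℕ) (h : ∀ p ∈ l, y ≤ (p : ℝ)) :
    y ^ l.length ≤ ((l.prod : ℕ) : ℝ) := by
  induction l with
  | nil => simp
  | cons a l ih =>
    rw [List.length_cons, List.prod_cons, pow_succ', Nat.cast_mul]
    exact mul_le_mul (h a List.mem_cons_self) (ih fun p hp => h p (List.mem_cons_of_mem _ hp)) (pow_nonneg hy _)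
      (Nat.cast_nonneg _)

private theorem pow_omega_le (y : ℝ) (hy : 0 ≤ y) (t : ℕ) (ht : t ≠ 0) (h : ∀ p : ℕ, p.Prime → p ∣ t → y ≤ (p : ℝ)) :
    y ^ (ArithmeticFunction.cardFactors t) ≤ (t : ℝ) := by
  have h1 := pow_le_prod y hy t.primeFactorsList fun p hp =>
    h p (Nat.prime_of_mem_primeFactorsList hp) (Nat.dvd_of_mem_primeFactorsList hp)
  rw [Nat.prod_primeFactorsList ht] at h1
  exact h1

/-- the case of a square factor -/
private theorem sq_case (n v : ℕ) (hn : 2 ≤ n) (hv1 : 1 ≤ v) (hv : (v : ℝ) ≤ (n : ℝ) ^ 2)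
    (hz : ∀ p : ℕ, p.Prime → p ∣ v → (n : ℝ) ^ (19 / 100 : ℝ) ≤ (p : ℝ))
    (hsq : ∀ p : ℕ, p.Prime → (p : ℝ) ≤ (n : ℝ) ^ (82 / 100 : ℝ) → ¬ p ^ 2 ∣ v) (p : ℕ) (hp : p.Prime)
    (hpv : p ^ 2 ∣ v) : ArithmeticFunction.cardFactors v ≤ 3 := by
  have hnr : (2 : ℝ) ≤ (n : ℝ) := by exact_mod_cast hn
  have hn0 : (0 : ℝ) < (n : ℝ) := by linarith
  have hn1 : (1 : ℝ) < (n : ℝ) := by linarith
  have hpb : (n : ℝ) ^ (82 / 100 : ℝ) < (p : ℝ) := by
    by_contra hcon
    push Not at hcon
    exact hsq p hp hcon hpv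
  obtain ⟨t, ht⟩ := hpv
  have ht0 : t ≠ 0 := by
    rintro rfl
    rw [mul_zero] at ht
    omega
  have hp0 : p ≠ 0 := hp.ne_zero
  have hO : ArithmeticFunction.cardFactors v = 2 + ArithmeticFunction.cardFactors t := by
    rw [ht, ArithmeticFunction.cardFactors_mul (pow_ne_zero 2 hp0) ht0,
      ArithmeticFunction.cardFactors_apply_prime_pow hp]
  have h82 : (0 : ℝ) < (n : ℝ) ^ (82 / 100 : ℝ) := by positivity
  -- `t` is small
  have htr : (0 : ℝ) < (t : ℝ) := by exact_mod_cast Nat.pos_of_ne_zero ht0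
  have hsmall : (t : ℝ) < (n : ℝ) ^ (36 / 100 : ℝ) := by
    have h1 : ((n : ℝ) ^ (82 / 100 : ℝ)) ^ 2 < (p : ℝ) ^ 2 := by
      have h0 : (0 : ℝ) ≤ (n : ℝ) ^ (82 / 100 : ℝ) := h82.le
      nlinarith
    have h2 : ((n : ℝ) ^ (82 / 100 : ℝ)) ^ 2 * (n : ℝ) ^ (36 / 100 : ℝ) = (n : ℝ) ^ 2 := by
      rw [← Real.rpow_natCast ((n : ℝ) ^ (82 / 100 : ℝ)) 2, ← Real.rpow_mul hn0.le, ← Real.rpow_add hn0,
        ← Real.rpow_natCast (n : ℝ) 2]
      norm_num
    have h3 : (v : ℝ) = (p : ℝ) ^ 2 * t := by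
      rw [ht]
      push_cast
      ring
    have h4 : ((n : ℝ) ^ (82 / 100 : ℝ)) ^ 2 * (t : ℝ) < ((n : ℝ) ^ (82 / 100 : ℝ)) ^ 2 * (n : ℝ) ^ (36 / 100 : ℝ) := by
      rw [h2]
      calc ((n : ℝ) ^ (82 / 100 : ℝ)) ^ 2 * (t : ℝ) < (p : ℝ) ^ 2 * t := mul_lt_mul_of_pos_right h1 htr
        _ = v := h3.symm
        _ ≤ (n : ℝ) ^ 2 := hv
    exact lt_of_mul_lt_mul_left h4 (by positivity)
  have h5 := pow_omega_le ((n : ℝ) ^ (19 / 100 : ℝ)) (by positivity) t ht0 fun q hq hqt =>
    hz q hq (hqt.trans (Dvd.intro_left _ ht.symm))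
  by_contra hcon
  push Not at hcon
  have h6 : 2 ≤ ArithmeticFunction.cardFactors t := by omega
  have h19 : (1 : ℝ) ≤ (n : ℝ) ^ (19 / 100 : ℝ) := Real.one_le_rpow hn1.le (by norm_num)
  have h7 : ((n : ℝ) ^ (19 / 100 : ℝ)) ^ 2 ≤ ((n : ℝ) ^ (19 / 100 : ℝ)) ^ (ArithmeticFunction.cardFactors t) :=
    pow_le_pow_right₀ h19 h6
  have h8 : ((n : ℝ) ^ (19 / 100 : ℝ)) ^ 2 = (n : ℝ) ^ (38 / 100 : ℝ) := by
    rw [← Real.rpow_natCast ((n : ℝ) ^ (19 / 100 : ℝ)) 2, ← Real.rpow_mul hn0.le]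
    norm_num
  have h9 : (n : ℝ) ^ (36 / 100 : ℝ) < (n : ℝ) ^ (38 / 100 : ℝ) :=
    Real.rpow_lt_rpow_of_exponent_lt hn1 (by norm_num)
  linarith

theorem hPT3 : StPT3 := by
  intro u n v hu hn hv1 hv hz hsq hsum
  have hk0 : v ≠ 0 := by omega
  have hur : (0 : ℝ) < (u : ℝ) := by exact_mod_cast hu
  have har : (2 : ℝ) ≤ (n : ℝ) := by exact_mod_cast hn
  have ha0 : (0 : ℝ) < (n : ℝ) := by linarith
  have hla : 0 < Real.log n := Real.log_pos (by linarith)
  by_cases hsf : Squarefree v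
  swap
  · rw [Nat.squarefree_iff_prime_squarefree] at hsf
    push Not at hsf
    obtain ⟨p, hp, hpv⟩ := hsf
    rw [← sq] at hpv
    exact sq_case n v hn hv1 hv hz hsq p hp hpv
  have hcard : ArithmeticFunction.cardFactors v = v.primeFactors.card := by
    rw [← (ArithmeticFunction.cardDistinctFactors_eq_cardFactors_iff_squarefree hk0).mpr hsf]
    rfl
  by_contra hcon
  push Not at hcon
  rw [hcard] at hcon
  have hc3 : (4 : ℝ) ≤ (v.primeFactors.card : ℝ) := by exact_mod_cast hcon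
  -- log v
  have hlogk : ∑ p ∈ v.primeFactors, Real.log p ≤ 2 * Real.log n := by
    have h1 : ∑ p ∈ v.primeFactors, Real.log p =
        Real.log ((v : ℕ) : ℝ) := by
      rw [← Real.log_prod]
      · congr 1
        have := Nat.prod_primeFactors_of_squarefree hsf
        rw [← Nat.cast_prod, this]
      · intro p hp
        have := (Nat.prime_of_mem_primeFactors hp).pos
        positivity
    rw [h1]
    have h2 : Real.log ((v : ℕ) : ℝ) ≤ Real.log ((n : ℝ) ^ 2) := by
      apply Real.log_le_log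
      · exact_mod_cast hv1
      · exact hv
    rwa [Real.log_pow, Nat.cast_ofNat] at h2
  -- swap
  set om : ℝ := 1 / (100 * u) with hom
  have hom0 : 0 < om := by rw [hom]; positivity
  have hej : ∀ j : ℕ, (ejq n om j v : ℝ) =
      ∑ p ∈ v.primeFactors, if p ∈ bq n om j then (1 : ℝ) else 0 := by
    intro j
    rw [Finset.sum_ite_mem, Finset.sum_const, nsmul_eq_mul, mul_one]
    congr 1
    unfold ejq
    congr 1
    ext p
    simp only [mem_filter, mem_inter, Nat.mem_primeFactors]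
    constructor
    · rintro ⟨h1, h2⟩
      have : p.Prime := by
        unfold bq at h1
        simp only [mem_filter] at h1
        exact h1.2.1
      exact ⟨⟨this, h2, hk0⟩, h1⟩
    · rintro ⟨⟨_, h2, _⟩, h1⟩
      exact ⟨h1, h2⟩
  have hpt : ∀ p ∈ v.primeFactors, 1 - Real.log p / (78 / 100 * Real.log n) ≤
      ∑ j ∈ Ico (19 * u) (78 * u), (1 - (j : ℝ) / (78 * u)) *
        (if p ∈ bq n om j then (1 : ℝ) else 0) := by
    intro p hp
    have hpp := Nat.prime_of_mem_primeFactors hp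
    have hpd := Nat.dvd_of_mem_primeFactors hp
    have hp0 : (0 : ℝ) < p := by exact_mod_cast hpp.pos
    have hnn : ∀ j ∈ Ico (19 * u) (78 * u), 0 ≤ (1 - (j : ℝ) / (78 * u)) *
        (if p ∈ bq n om j then (1 : ℝ) else 0) := by
      intro j hj
      rw [mem_Ico] at hj
      apply mul_nonneg
      · rw [sub_nonneg, div_le_one (by positivity)]
        have : (j : ℝ) ≤ ((78 * u : ℕ) : ℝ) := by exact_mod_cast hj.2.le
        push_cast at this; exact this
      · split_ifs <;> norm_num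
    by_cases hbig : 78 / 100 * Real.log n ≤ Real.log p
    · have h1 : 1 ≤ Real.log p / (78 / 100 * Real.log n) := by
        rw [le_div_iff₀ (by positivity)]; linarith
      have h2 := Finset.sum_nonneg hnn
      linarith
    · push Not at hbig
      set t : ℝ := Real.log p / (om * Real.log n) with ht
      have hlp : 0 ≤ Real.log p := Real.log_nonneg (by exact_mod_cast hpp.one_lt.le)
      have ht0 : 0 ≤ t := by positivity
      set j := ⌊t⌋₊ with hj
      have hj1 : (j : ℝ) ≤ t := Nat.floor_le ht0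
      have hj2 : t < (j : ℝ) + 1 := Nat.lt_floor_add_one t
      have htl : t * (om * Real.log n) = Real.log p := by
        rw [ht]; field_simp
      have homl : 0 < om * Real.log n := by positivity
      have hlow : (n : ℝ) ^ ((j : ℝ) * om) ≤ (p : ℝ) := by
        rw [← Real.log_le_log_iff (by positivity) hp0, Real.log_rpow ha0, ← htl]
        have := mul_le_mul_of_nonneg_right hj1 homl.le
        linarith
      have hupp : (p : ℝ) < (n : ℝ) ^ (((j : ℝ) + 1) * om) := by
        rw [← Real.log_lt_log_iff hp0 (by positivity), Real.log_rpow ha0, ← htl]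
        have := mul_lt_mul_of_pos_right hj2 homl
        linarith
      have hmem : p ∈ bq n om j := by
        unfold bq
        simp only [mem_filter, mem_range]
        exact ⟨Nat.lt_ceil.mpr hupp, hpp, hlow⟩
      have hjl : 19 * u ≤ j := by
        apply Nat.le_floor
        have h1 := hz p hpp hpd
        rw [← Real.log_le_log_iff (by positivity) hp0, Real.log_rpow ha0, ← htl] at h1
        have h2 : (((19 * u : ℕ)) : ℝ) * (om * Real.log n) ≤ t * (om * Real.log n) := by
          refine le_trans (le_of_eq ?_) h1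
          rw [hom]
          push_cast
          field_simp
        exact le_of_mul_le_mul_right h2 homl
      have hjr : j < 78 * u := by
        rw [hj, Nat.floor_lt ht0]
        rw [ht, div_lt_iff₀ homl]
        have : (((78 * u : ℕ)) : ℝ) * (om * Real.log n) = 78 / 100 * Real.log n := by
          rw [hom]; push_cast; field_simp
        rw [this]; exact hbig
      have h1 := Finset.single_le_sum hnn (mem_Ico.mpr ⟨hjl, hjr⟩)
      refine le_trans ?_ h1
      rw [if_pos hmem, mul_one]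
      have h2 : (j : ℝ) / (78 * u) ≤ Real.log p / (78 / 100 * Real.log n) := by
        have h3 : Real.log p / (78 / 100 * Real.log n) = t / (78 * u) := by
          rw [ht, hom]; field_simp
        rw [h3]
        exact div_le_div_of_nonneg_right hj1 (by positivity)
      linarith
  have hfin := Finset.sum_le_sum hpt
  rw [Finset.sum_sub_distrib, Finset.sum_const, nsmul_eq_mul, mul_one, ← Finset.sum_div,
    Finset.sum_comm] at hfin
  have hrew : ∑ j ∈ Ico (19 * u) (78 * u), 697 / 1000 * (1 - (j : ℝ) / (78 * u)) *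
      (ejq n om j v : ℝ) = 697 / 1000 * ∑ j ∈ Ico (19 * u) (78 * u),
        ∑ p ∈ v.primeFactors, (1 - (j : ℝ) / (78 * u)) *
        (if p ∈ bq n om j then (1 : ℝ) else 0) := by
    rw [Finset.mul_sum]
    refine Finset.sum_congr rfl fun j _ => ?_
    rw [hej j, ← Finset.mul_sum, mul_assoc]
  rw [hrew] at hsum
  have h5 : (∑ p ∈ v.primeFactors, Real.log p) / (78 / 100 * Real.log n) ≤ 200 / 78 := by
    rw [div_le_iff₀ (by positivity)]
    have : 200 / 78 * (78 / 100 * Real.log n) = 2 * Real.log n := by ring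
    linarith
  have h6 : (4 : ℝ) - 200 / 78 ≤ ∑ j ∈ Ico (19 * u) (78 * u),
        ∑ p ∈ v.primeFactors, (1 - (j : ℝ) / (78 * u)) *
        (if p ∈ bq n om j then (1 : ℝ) else 0) := by linarith
  have h7 : (1 : ℝ) ≤ 697 / 1000 * (4 - 200 / 78) := by norm_num
  linarith

end Pool.Agent.Helper34.KS
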